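import Pool.Agent.T6.H98.DC.Final

/-!
# Knotoids, strongly invertible knots, and the Jones polynomial modulo 2

Let `K` be a knotoid diagram in the sphere with `N` crossings.  The double cover of the sphere which is branched
at the tail and at the head of `K` is a sphere again.  The preimage `K'` of `K` is the diagram, with `2 N`
crossings, of a knot with a strong inversion (the deck transformation); a knotoid is trivial if and only if this
knot is trivial (Barbensi, Buck, Harrington, Lackenby).

Definitions (starting library, `Pool.Agent.H832R2.JR.Defs`, `Pool.Agent.H124R3.OW.Final`): the Gauss word
`G : Fin N × Bool ≃ Fin (2 * N)` gives the places of the two passages `(c, false)`, `(c, true)` of every crossing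
`c` on the way from the tail to the head; `w c = true` for the positive crossings; `fPoly G w` is the normalised
bracket (a Laurent polynomial in `A = T 1`; it is the same for the knotoid diagram and for the closed curve with
this Gauss word, since the interval of a state may be closed); `OddCrossing G c`: an odd number of chords cross
the chord of `c`, that is an odd number of passages lies between the two passages of `c`; `oddWrithe G w`: the
sum of the signs of the odd crossings; `Crosses`, `npos`, `nneg`, and `loops G (fun _ => true)`, the number of
Seifert circles.

`Pool.Agent.T6.H98.DC.Defs` contains the Gauss word `lift G` and the signs `liftSign G w` of `K'`.  Travel along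
`K'`: first along one lift of `K` from the tail to the head, then along the other lift from the head to the tail.
A passage of the crossing `c` at the place `p` gives passages of `K'` at the places `p` and `4 N - 1 - p`.  The
loop of `K` at the crossing `c` separates the tail from the head exactly if `c` is odd.  So for an even crossing the
lift `lab (false, c)` is passed twice on the first half of the way and `lab (true, c)` twice on the second half;
for an odd crossing each of the two lifts is passed once on every half, and, one of the two strands being
reversed, its sign is opposite to the sign of `c`.

`Pool.Agent.T6.H98.DC.Adq`: `AdequateDiagram G w`: neither in the state with all smoothings of type `A` nor in the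
state with all smoothings of type `B` a curve meets itself at a crossing (for instance reduced alternating
diagrams).

The proof: the deck transformation acts on the states of `K'`; modulo 2 only the symmetric states contribute;
every circle of a state of `K` turns at the odd crossings an even number of times, because the interlacement form
is alternating; so the circles have two lifts, but the interval has only one.
-/

set_option autoImplicit false

namespace Pool.Agent.Results.MP_79b4ff_gt.DoubleCover

open LaurentPolynomial Pool.Agent.H832R2.JR Pool.Agent.H124R3.OW Pool.Agent.T6.H98.DC

/-- Let `K` be the (virtual) knotoid diagram with the Gauss word `G` and the signs `w`, and let `K'` be its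
double cover, with the Gauss word `lift G` and the signs `liftSign G w` (given explicitly in 1).

2. `f(K') ≡ A^(12 J) f(K)^2` modulo 2, where `J` is the odd writhe of `K`.
3. If `f(K) = 1` then `f(K') ≡ 1` modulo 2: all coefficients of the Jones polynomial of the
   knot `K'` are even, with the exception of the constant coefficient, which is odd.
4. If `f(K) = 1`, and if `D = (G', w')` is a diagram with the same Jones polynomial as `K'` (for instance any
   other diagram of the knot `K'`), then: (a) if `D` is adequate then it has no crossings;
   (b) `N' + 1 - s ≤ 4 min (n₊, n₋)` for the numbers `N'` of the crossings, `s` of the Seifert circles and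
   `n₊`, `n₋` of the positive and negative crossings of `D`; (c) if `D` is positive or negative then no
   two chords of `D` cross.  So `f(K) ≠ 1` if the double cover of `K` is a nontrivial knot which is
   alternating, adequate, positive or negative. -/
theorem result :
    (∀ (N : ℕ) (G : GaussWord N) (w : Fin N → Bool) (d : Bool) (c : Fin N) (b : Bool),
      (lift G (lab (d, c), b) : ℕ) =
        (if xor d (b && odd G c) then 4 * N - 1 - G (c, b) else G (c, b)) ∧
      (odd G c = true ↔ OddCrossing G c) ∧
      liftSign G w (lab (d, c)) = xor (w c) (odd G c)) ∧
    (∀ (N : ℕ) (G : GaussWord N) (w : Fin N → Bool),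
      (2 : ℤ[T;T⁻¹]) ∣ fPoly (lift G) (liftSign G w) - T (12 * oddWrithe G w) * fPoly G w ^ 2) ∧
    (∀ (N : ℕ) (G : GaussWord N) (w : Fin N → Bool), fPoly G w = 1 →
      (2 : ℤ[T;T⁻¹]) ∣ fPoly (lift G) (liftSign G w) - 1) ∧
    (∀ (N : ℕ) (G : GaussWord N) (w : Fin N → Bool), fPoly G w = 1 →
      ∀ (N' : ℕ) (G' : GaussWord N') (w' : Fin N' → Bool),
        fPoly G' w' = fPoly (lift G) (liftSign G w) →
        (AdequateDiagram G' w' → N' = 0) ∧
        (0 < N' → N' + 1 ≤ loops G' (fun _ => true) + 4 * min (npos w') (nneg w')) ∧
        ((∀ c, w' c = true) ∨ (∀ c, w' c = false) → ∀ i j, ¬ Crosses G' i j)) := by
  refine ⟨fun N G w d c b => ⟨lift_val G d c b, ?_, ?_⟩, fun _ G w => fPoly_lift G w,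
    fun _ G w h => lift_one G w h, ?_⟩
  · classical
    unfold odd
    exact decide_eq_true_iff
  · simp [liftSign]
  · intro N G w h N' G' w' h'
    have h1 := lift_one G w h
    rw [← h'] at h1
    refine ⟨fun hA => ?_, fun hN => genus_two G' hN w' h1, fun hw i j => one_sign_two G' w' h1 hw i j⟩
    refine adequate_monomial G' w' hA 0 ?_
    rw [T_zero]
    exact h1

end Pool.Agent.Results.MP_79b4ff_gt.DoubleCover
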