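import Pool.Agent.T6.H98.KO.Alg

/-!
# Knotoids of height two

The definitions are in two files.

`Pool.Agent.H891R2.HO.Defs` (starting library):

* `Shadow k`: shadows of link diagrams with `k` crossings, each crossing with four corners in
  counterclockwise order, joined by arcs; `Shadow.IsKnot`: one component; `Shadow.Oriented`: orientations;
  `Shadow.f G w o`: the normalised bracket (the Jones polynomial in the variable `A = T 1`) of the
  diagram with the shadow `G`, the over/under information `w` and the orientation `o`; `Shadow.sign`: the sign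
  of a crossing; `Shadow.unit n = (-A^3)^(-n)`.

`Pool.Agent.T6.H98.KO.Defs`:

* `Sphere G`: the shadow `G` lies in the sphere, expressed by the theorem on Jordan curves modulo two: every
  set of arcs which meets every crossing in an even number of corners is the boundary of a set of regions;
* `Shortcut G n`: a strand of `G` which passes through `n + 1` pairwise different crossings `e 0, …, e n`; here
  `n = 1`;
* `S.fK w o`: the normalised bracket of the knotoid diagram which is obtained from the diagram `(G, w)` by
  deleting this strand, a state sum over the other crossings, where the interval and the circles of a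
  state are counted;
* `S.close w false`, `S.close w true`: the over/under information of the two closures of the knotoid diagram: the
  strand passes over (under) the two other strands;
* `S.tau o`: the sum of the signs of the crossings `e 0`, `e 1` of the first closure.

Every knotoid diagram in the sphere whose head and tail can be joined by an arc which crosses the diagram twice
is of this form; so all knotoids of height two have such diagrams.
-/

set_option autoImplicit false

namespace Pool.Agent.Results.MP_79b4ff_gt.HeightTwo

open LaurentPolynomial Pool.Agent.H891R2.HO Pool.Agent.T6.H98.KO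

/-- Let `K` be a knotoid diagram in the sphere with a shortcut which crosses it twice, and let
`K₊`, `K₋` be its two closures.  Write `f(K) = g₀ + g₂`, where the exponents of `g₀` are divisible by four and
the exponents of `g₂` are congruent to `2` modulo `4` (this is possible, and in only one way).  Let `τ` be the
sum of the signs of the two crossings of the shortcut in `K₊`.

* If `τ = 0` then `f(K₊) + f(K₋) = 2 g₀ + (A^6 + A^(-6)) g₂`; so `f(K)` determines this sum.
* If `τ = 2` then `f(K₋) - g₀ - A^6 g₂ = - A^12 (f(K₊) - g₀ - A^(-6) g₂)`.
* If `τ = -2` then `f(K₋) - g₀ - A^(-6) g₂ = - A^(-12) (f(K₊) - g₀ - A^6 g₂)`.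

So if `f(K) = 1` then `f(K₊) + f(K₋) = 2` or `f(K₋) - 1 = - A^(±12) (f(K₊) - 1)`, and `f(K₊) = 1` if and only if
`f(K₋) = 1`. -/
theorem result {k : ℕ} (G : Shadow k) (hG : Sphere G) (hK : G.IsKnot) (w : Fin k → Bool)
    (o : Fin k × Fin 4 → Bool) (ho : G.Oriented o) (S : Shortcut G 1) :
    (∃ g₀ g₂ : ℤ[T;T⁻¹], (∀ j, g₀.coeff j ≠ 0 → (4 : ℤ) ∣ j) ∧ (∀ j, g₂.coeff j ≠ 0 → (4 : ℤ) ∣ j - 2) ∧
      S.fK w o = g₀ + g₂ ∧
      ((S.tau o = 0 ∧ G.f (S.close w false) o + G.f (S.close w true) o = 2 * g₀ + (T 6 + T (-6)) * g₂) ∨
       (S.tau o = 2 ∧ G.f (S.close w true) o - g₀ - T 6 * g₂ =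
          -(T 12 * (G.f (S.close w false) o - g₀ - T (-6) * g₂))) ∨
       (S.tau o = -2 ∧ G.f (S.close w true) o - g₀ - T (-6) * g₂ =
          -(T (-12) * (G.f (S.close w false) o - g₀ - T 6 * g₂))))) ∧
    (S.fK w o = 1 →
      ((S.tau o = 0 ∧ G.f (S.close w false) o + G.f (S.close w true) o = 2) ∨
       (S.tau o = 2 ∧ G.f (S.close w true) o - 1 = -(T 12 * (G.f (S.close w false) o - 1))) ∨
       (S.tau o = -2 ∧ G.f (S.close w true) o - 1 = -(T (-12) * (G.f (S.close w false) o - 1)))) ∧
      (G.f (S.close w false) o = 1 ↔ G.f (S.close w true) o = 1)) := by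
  obtain ⟨g₀, g₂, h0, h2, h3, h4⟩ := height_two S hG hK w o ho
  refine ⟨⟨g₀, g₂, fun j hj => ?_, h2, h3, h4⟩, fun h => ?_⟩
  · have := h0 j hj
    rwa [sub_zero] at this
  · obtain ⟨rfl, rfl⟩ := parts_unique h0 h2 O6.Sup.one (O6.Sup.zero 2) (by rw [← h3, h, add_zero])
    simp only [mul_zero, sub_zero, add_zero, mul_one] at h4
    refine ⟨h4, ?_⟩
    rcases h4 with ⟨_, h4⟩ | ⟨_, h4⟩ | ⟨_, h4⟩
    · constructor
      · intro h5
        rw [h5] at h4
        linear_combination h4
      · intro h5
        rw [h5] at h4
        linear_combination h4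
    · constructor
      · intro h5
        rw [h5, sub_self, mul_zero, neg_zero] at h4
        exact sub_eq_zero.1 h4
      · intro h5
        rw [h5, sub_self] at h4
        have h6 : (T 12 : ℤ[T;T⁻¹]) * T (-12) = 1 := by rw [← T_add]; norm_num
        have h7 : G.f (S.close w false) o - 1 = 0 := by
          linear_combination (T (-12)) * h4 - (G.f (S.close w false) o - 1) * h6
        exact sub_eq_zero.1 h7
    · constructor
      · intro h5
        rw [h5, sub_self, mul_zero, neg_zero] at h4
        exact sub_eq_zero.1 h4
      · intro h5
        rw [h5, sub_self] at h4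
        have h6 : (T (-12) : ℤ[T;T⁻¹]) * T 12 = 1 := by rw [← T_add]; norm_num
        have h7 : G.f (S.close w false) o - 1 = 0 := by
          linear_combination (T 12) * h4 - (G.f (S.close w false) o - 1) * h6
        exact sub_eq_zero.1 h7

end Pool.Agent.Results.MP_79b4ff_gt.HeightTwo
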