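import Pool.Agent.T6.H96.KT.Fin

/-!
# Knotoids whose normalised brackets agree with that of a given knotoid to high order at `A^4 = 1`

Diagrams (starting library `Pool.Agent.H891R2.Jones.Diagram`): `Diagram P` (oriented diagrams with marked
points `P`, planar or not; `Diagram.loops`, the number of components of a state, counts circles and
intervals), `Diagram.fPoly` (the normalised bracket `(-A^{-3})^{w(D)} ⟨D⟩`, `A = T 1`), `Outer m` (the part
of an oriented diagram outside a box through which `m` strands run, with arbitrary directions; the tail and
the head of a knotoid may be anywhere outside the box) and `Outer.close` (fills the box with vertical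
strands).  `IsKnotoid D` (starting library `Pool.Agent.H832R3.TW.E`): the pieces of `D` form one oriented
interval, running from a marked point `tail` to a different marked point `head`, and (possibly) oriented
closed curves.  Starting library `Pool.Agent.W639.RB.Defs`: `Letter m` (the `2 (m - 1)` letters `σ_i^{±1}`
of the braid group on `m` strands), `diagram O w` (the diagram obtained by drawing the word
`w : Fin L → Letter m` in the box of `O`), `perm w` (the permutation of the strands).

Idea of the proof: in the Temperley-Lieb algebra over `ℤ[A, A⁻¹]` the elements of two words with the same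
permutation differ by a unit `± A^j` modulo `A^4 - 1`.  Therefore the coefficients of
`(A^4 - 1)^k`, `k < n`, of the elements of the words of length `N` have size at most `C N^k`, and there are at
most `(C N)^(C n^2)` classes of words modulo `(A^4 - 1)^n`; two words of the same class give the word
`w w'⁻¹` of length `2 N` which acts like the empty word modulo `(A^4 - 1)^n`.
-/

set_option autoImplicit false

namespace Pool.Agent.Results.MP_79b4ff_gt.NearlyTrivialBrackets

open Finset LaurentPolynomial Pool.Agent.H891R2.Jones Pool.Agent.W639.RB Pool.Agent.H832R3.TW

/-- Let `m ≥ 3`.  There are constants `C, c > 0` such that for all `n ≥ 1` and `N ≥ 2` there is a set `W` of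
words of length `2 N` in the letters `σ_i^{±1}` with the following properties.

* `W` contains at least the proportion `(C N)^(-C n^2)` of all `(2m-2)^(2N)` words (for fixed `n` a
  polynomially small proportion).
* The words of `W` are pure braids. If a word `u ∈ W` is drawn in a box with `m` strands of any diagram
  whatever, the normalised bracket does not change modulo `(A^4 - 1)^n`; diagrams of knotoids stay diagrams
  of knotoids.  In particular, if the original diagram (with the empty word) is one of the trivial knotoid,
  the new knotoids have normalised brackets congruent to `1` modulo `(A^4 - 1)^n`.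
* If `N ≥ C n^2 log N`, then for every diagram and every integer `M ≥ 2` the set `W` contains at least
  `exp (c N)` words for which the normalised brackets of the new diagrams are pairwise incongruent modulo
  `M` and incongruent modulo `M` to the one of the original diagram.  In particular these are exponentially
  many different knotoids, and they are nontrivial if the original one is trivial. -/
theorem result (m : ℕ) (hm : 3 ≤ m) : ∃ C c : ℝ, 0 < C ∧ 0 < c ∧ ∀ n N : ℕ, 1 ≤ n → 2 ≤ N →
    ∃ W : Finset (Fin (2 * N) → Letter m),
      (C * N) ^ (-(C * (n : ℝ) ^ 2)) * ((2 * (m - 1) : ℕ) : ℝ) ^ (2 * N) ≤ W.card ∧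
      (∀ u ∈ W, perm u = 1 ∧ ∀ O : Outer m, (IsKnotoid O.close → IsKnotoid (diagram O u)) ∧
        (T 4 - 1 : ℤ[T;T⁻¹]) ^ n ∣ (diagram O u).fPoly - O.close.fPoly) ∧
      (C * (n : ℝ) ^ 2 * Real.log N ≤ N → ∀ (O : Outer m) (M : ℕ), 2 ≤ M →
        ∃ V ⊆ W, Real.exp (c * N) ≤ V.card ∧
          (∀ u ∈ V, ¬ (M : ℤ[T;T⁻¹]) ∣ (diagram O u).fPoly - O.close.fPoly) ∧
          ∀ u ∈ V, ∀ v ∈ V, u ≠ v → ¬ (M : ℤ[T;T⁻¹]) ∣ (diagram O u).fPoly - (diagram O v).fPoly) :=
  Pool.Agent.T6.H96.KT.main2 hm

end Pool.Agent.Results.MP_79b4ff_gt.NearlyTrivialBrackets
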