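import Pool.Agent.T6.H98.KO.Strong

/-!
# The two closures of a knotoid modulo `(A^4 - 1) (A^12 - 1)^2`

The definitions are in two files.

`Pool.Agent.H891R2.HO.Defs` (starting library):

* `Shadow k`: shadows of link diagrams with `k` crossings, each crossing with four corners in
  counterclockwise order, joined by arcs; `Shadow.IsKnot`: one component; `Shadow.Oriented`: orientations;
  `Shadow.f G w o`: the normalised bracket (the Jones polynomial in the variable `A = T 1`) of the
  diagram with the shadow `G`, the over/under information `w` and the orientation `o`; `Shadow.sign`: the sign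
  of a crossing; `Shadow.unit n = (-A^3)^(-n)`.

`Pool.Agent.T6.H98.KO.Defs`:

* `Sphere G`: the shadow `G` lies in the sphere, expressed by the theorem on Jordan curves modulo two: every
  set of arcs which meets every crossing in an even number of corners is the boundary of a set of regions;
* `Shortcut G n`: a strand of `G` which passes through `n + 1` pairwise different crossings `e 0, …, e n`;
* `S.fK w o`: the normalised bracket of the knotoid diagram which is obtained from the diagram `(G, w)` by
  deleting this strand, a state sum over the other crossings, where the interval and the circles of a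
  state are counted;
* `S.close w false`, `S.close w true`: the over/under information of the two closures of the knotoid diagram: the
  strand passes over (under) all the other strands.

Every knotoid diagram in the sphere, together with an arc (a shortcut) which joins the head with the tail and
crosses the diagram `n + 1` times, is of this form.  The two closures are the knots `K₊` and `K₋` which are
obtained from the knotoid by joining the head with the tail over, respectively under, the diagram.

Proof.  In a state of the knotoid diagram the arc crosses the pieces of this state only from above (or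
only from below), so that it can be simplified; this gives the factor `(-A^3)^t` (or its inverse), where
`t` is an integer which depends on the state.  So `f(K)`, `f(K₊)` and `f(K₋)` are the values at `v = 1`,
`v = A^6` and `v = A^(-6)` of a Laurent polynomial `P = ∑ F_m(A) v^m` (a form of Turaev's two-variable
extension of the bracket polynomial).  By the checkerboard colouring the exponents of `F_m` are congruent to
`2 m` modulo `4`, and an evaluation at `A = i` shows that `F_m` is divisible by `A^4 - 1` for `m ≠ 0`.
-/

set_option autoImplicit false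

namespace Pool.Agent.Results.MP_79b4ff_gt.OverUnderCongruence

open LaurentPolynomial Pool.Agent.H891R2.HO Pool.Agent.T6.H98.KO

/-- Let `K` be a knotoid diagram in the sphere and let `K₊`, `K₋` be its two closures.  Write `f(K) = g₀ + g₂`,
where the exponents of `g₀` are divisible by four and the exponents of `g₂` are congruent to `2` modulo `4`
(this is possible, and in only one way).  Then

* `g₀ ≡ 1` and `g₂ ≡ 0` modulo `A^4 - 1`,
* `f(K₊) ≡ f(K₋) ≡ g₀ + A^6 g₂` modulo `(A^4 - 1) (A^12 - 1)`,
* `f(K₊) + f(K₋) ≡ 2 g₀ + (A^6 + A^(-6)) g₂` modulo `(A^4 - 1) (A^12 - 1)^2`.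

So `f(K)` determines `f(K₊) + f(K₋)` modulo `(A^4 - 1) (A^12 - 1)^2`.  If `f(K) = 1` then
`f(K₊) + f(K₋) ≡ 2` modulo `(A^4 - 1) (A^12 - 1)^2`. -/
theorem result {k n : ℕ} (G : Shadow k) (hG : Sphere G) (hK : G.IsKnot) (w : Fin k → Bool)
    (o : Fin k × Fin 4 → Bool) (ho : G.Oriented o) (S : Shortcut G n) :
    (∃ g₀ g₂ : ℤ[T;T⁻¹], (∀ j, g₀.coeff j ≠ 0 → (4 : ℤ) ∣ j) ∧ (∀ j, g₂.coeff j ≠ 0 → (4 : ℤ) ∣ j - 2) ∧
      S.fK w o = g₀ + g₂ ∧ (T 4 - 1 : ℤ[T;T⁻¹]) ∣ g₀ - 1 ∧ (T 4 - 1 : ℤ[T;T⁻¹]) ∣ g₂ ∧
      ((T 4 - 1) * (T 12 - 1) : ℤ[T;T⁻¹]) ∣ G.f (S.close w false) o - (g₀ + T 6 * g₂) ∧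
      ((T 4 - 1) * (T 12 - 1) : ℤ[T;T⁻¹]) ∣ G.f (S.close w true) o - (g₀ + T 6 * g₂) ∧
      ((T 4 - 1) * (T 12 - 1) ^ 2 : ℤ[T;T⁻¹]) ∣ G.f (S.close w false) o + G.f (S.close w true) o -
        (2 * g₀ + (T 6 + T (-6)) * g₂)) ∧
    (S.fK w o = 1 →
      ((T 4 - 1) * (T 12 - 1) ^ 2 : ℤ[T;T⁻¹]) ∣ G.f (S.close w false) o + G.f (S.close w true) o - 2) := by
  obtain ⟨g₀, g₂, h0, h2, h3, h4, h5, h6, h7, h8⟩ := strong_congruence S hG hK w o ho
  refine ⟨⟨g₀, g₂, fun j hj => ?_, h2, h3, h4, h5, h6, h7, h8⟩, fun h => ?_⟩
  · have := h0 j hj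
    rwa [sub_zero] at this
  · obtain ⟨rfl, rfl⟩ := parts_unique h0 h2 O6.Sup.one (O6.Sup.zero 2) (by rw [← h3, h, add_zero])
    have e : G.f (S.close w false) o + G.f (S.close w true) o - 2 = 
        G.f (S.close w false) o + G.f (S.close w true) o - (2 * 1 + (T 6 + T (-6)) * 0) := by ring
    rw [e]
    exact h8

end Pool.Agent.Results.MP_79b4ff_gt.OverUnderCongruence
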